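import Mathlib

/-!
# Collapsing separated holes in a pseudometric

`collapse_step`: holes of diameter `≤ a` and mutual distance `≥ b` can be collapsed to points at the
cost of a factor `1 + 2 a / b` and an additive constant `2 a`.
-/

set_option autoImplicit false

noncomputable section

namespace Pool.Agent.Helper92.LR

variable {X : Type*}

/-- A pseudometric given as a function. -/
structure PM (d : X → X → ℝ) : Prop where
  self : ∀ x, d x x = 0
  symm : ∀ x y, d x y = d y x
  tri : ∀ x y z, d x z ≤ d x y + d y z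

theorem PM.nonneg {d : X → X → ℝ} (hd : PM d) (x y : X) : 0 ≤ d x y := by
  have h := hd.tri x y x
  rw [hd.self, hd.symm y x] at h
  linarith

/-- `1`-Lipschitz functions which are constant on every hole. -/
private def adm (d : X → X → ℝ) (H : Set (Set X)) : Set (X → ℝ) :=
  {u | (∀ x y, u x - u y ≤ d x y) ∧ ∀ S ∈ H, ∀ x ∈ S, ∀ y ∈ S, u x = u y}

private theorem flat {d : X → X → ℝ} (hd : PM d) (H : Set (Set X)) {a b : ℝ} (ha : 0 ≤ a)
    (hb : 0 < b) (diam : ∀ S ∈ H, ∀ x ∈ S, ∀ y ∈ S, d x y ≤ a)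
    (sep : ∀ S ∈ H, ∀ T ∈ H, S ≠ T → ∀ x ∈ S, ∀ y ∈ T, b ≤ d x y) (x₀ : X) :
    ∃ u : X → ℝ, (∀ x y, u x - u y ≤ (1 + 2 * a / b) * d x y) ∧
      (∀ S ∈ H, ∀ x ∈ S, ∀ y ∈ S, u x = u y) ∧ ∀ x, |u x - d x₀ x| ≤ a := by
  classical
  -- value on a hole
  let cen : Set X → X := fun S => if h : S.Nonempty then h.choose else x₀
  have hcenm : ∀ S : Set X, S.Nonempty → cen S ∈ S := fun S h => by
    simp only [cen, dif_pos h]
    exact h.choose_spec
  have huniq : ∀ S ∈ H, ∀ T ∈ H, ∀ x, x ∈ S → x ∈ T → S = T := by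
    intro S hS T hT x hxS hxT
    by_contra hne
    have := sep S hS T hT hne x hxS x hxT
    rw [hd.self] at this
    linarith
  let v : X → ℝ := fun z => if h : ∃ S ∈ H, z ∈ S then d x₀ (cen h.choose) else d x₀ z + a
  have hv1 : ∀ S ∈ H, ∀ z ∈ S, v z = d x₀ (cen S) := by
    intro S hS z hz
    have hex : ∃ S ∈ H, z ∈ S := ⟨S, hS, hz⟩
    have : hex.choose = S := huniq _ hex.choose_spec.1 _ hS z hex.choose_spec.2 hz
    simp only [v, dif_pos hex, this]
  have hv2 : ∀ z, (¬ ∃ S ∈ H, z ∈ S) → v z = d x₀ z + a := fun z hz => by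
    simp only [v, dif_neg hz]
  have hvl : ∀ z, d x₀ z - a ≤ v z := by
    intro z
    by_cases hz : ∃ S ∈ H, z ∈ S
    · obtain ⟨S, hS, hzS⟩ := hz
      rw [hv1 S hS z hzS]
      have h1 := hd.tri x₀ (cen S) z
      have h2 := diam S hS _ (hcenm S ⟨z, hzS⟩) z hzS
      linarith
    · rw [hv2 z hz]
      linarith
  have hvu : ∀ z, v z ≤ d x₀ z + a := by
    intro z
    by_cases hz : ∃ S ∈ H, z ∈ S
    · obtain ⟨S, hS, hzS⟩ := hz
      rw [hv1 S hS z hzS]
      have h1 := hd.tri x₀ z (cen S)
      have h2 := diam S hS z hzS _ (hcenm S ⟨z, hzS⟩)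
      linarith
    · rw [hv2 z hz]
  have hl : (1 : ℝ) ≤ 1 + 2 * a / b := by
    have : 0 ≤ 2 * a / b := by positivity
    linarith
  have hbd : ∀ x z, d x₀ x - a ≤ v z + (1 + 2 * a / b) * d x z := by
    intro x z
    have h1 := hvl z
    have h2 := hd.tri x₀ z x
    rw [hd.symm z x] at h2
    have h3 := hd.nonneg x z
    nlinarith
  have hbb : ∀ x, BddBelow (Set.range fun z => v z + (1 + 2 * a / b) * d x z) := fun x =>
    ⟨d x₀ x - a, by rintro _ ⟨z, rfl⟩; exact hbd x z⟩
  have : Nonempty X := ⟨x₀⟩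
  let u : X → ℝ := fun x => ⨅ z, (v z + (1 + 2 * a / b) * d x z)
  have hle : ∀ x z, u x ≤ v z + (1 + 2 * a / b) * d x z := fun x z => ciInf_le (hbb x) z
  refine ⟨u, ?_, ?_, ?_⟩
  · intro x y
    have h1 : u x - (1 + 2 * a / b) * d x y ≤ u y := by
      refine le_ciInf fun z => ?_
      have h2 := hle x z
      have h3 := hd.tri x y z
      have h4 := mul_le_mul_of_nonneg_left h3 (by linarith : (0 : ℝ) ≤ 1 + 2 * a / b)
      nlinarith
    linarith
  · have key : ∀ S ∈ H, ∀ x ∈ S, u x = d x₀ (cen S) := by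
      intro S hS x hx
      apply le_antisymm
      · have h1 := hle x x
        rw [hd.self, mul_zero, add_zero, hv1 S hS x hx] at h1
        exact h1
      · refine le_ciInf fun z => ?_
        by_cases hz : ∃ T ∈ H, z ∈ T
        · obtain ⟨T, hT, hzT⟩ := hz
          rw [hv1 T hT z hzT]
          by_cases hST : S = T
          · subst hST
            have := hd.nonneg x z
            nlinarith
          · have h1 := sep S hS T hT hST x hx z hzT
            have h2 := hd.tri x₀ (cen T) (cen S)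
            have h3 := hd.tri (cen T) z (cen S)
            have h4 := hd.tri z x (cen S)
            have h5 := diam T hT _ (hcenm T ⟨z, hzT⟩) z hzT
            have h6 := diam S hS x hx _ (hcenm S ⟨x, hx⟩)
            rw [hd.symm z x] at h4
            have h7 : 2 * a ≤ 2 * a / b * d x z := by
              rw [div_mul_eq_mul_div, le_div_iff₀ hb]
              nlinarith
            nlinarith
        · rw [hv2 z hz]
          have h1 := hd.tri x₀ z (cen S)
          have h2 := hd.tri z x (cen S)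
          have h3 := diam S hS x hx _ (hcenm S ⟨x, hx⟩)
          rw [hd.symm z x] at h2
          have h4 := hd.nonneg x z
          nlinarith
    intro S hS x hx y hy
    rw [key S hS x hx, key S hS y hy]
  · intro x
    rw [abs_le]
    constructor
    · have : d x₀ x - a ≤ u x := le_ciInf fun z => hbd x z
      linarith
    · have h1 := hle x x
      rw [hd.self, mul_zero, add_zero] at h1
      have := hvu x
      linarith

theorem collapse_step {d : X → X → ℝ} (hd : PM d) (H : Set (Set X)) {a b : ℝ} (ha : 0 ≤ a)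
    (hb : 0 < b) (diam : ∀ S ∈ H, ∀ x ∈ S, ∀ y ∈ S, d x y ≤ a)
    (sep : ∀ S ∈ H, ∀ T ∈ H, S ≠ T → ∀ x ∈ S, ∀ y ∈ T, b ≤ d x y) :
    ∃ e : X → X → ℝ, PM e ∧ (∀ x y, e x y ≤ d x y) ∧
      (∀ S ∈ H, ∀ x ∈ S, ∀ y ∈ S, e x y = 0) ∧
      ∀ x y, d x y ≤ (1 + 2 * a / b) * e x y + 2 * a := by
  classical
  have h0 : (fun _ : X => (0 : ℝ)) ∈ adm d H := ⟨fun x y => by
    simpa using hd.nonneg x y, fun _ _ _ _ _ _ => rfl⟩
  have hne : ∀ x y : X, {t : ℝ | ∃ u ∈ adm d H, t = u x - u y}.Nonempty :=
    fun x y => ⟨_, _, h0, rfl⟩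
  have hbd : ∀ x y : X, BddAbove {t : ℝ | ∃ u ∈ adm d H, t = u x - u y} := fun x y =>
    ⟨d x y, by rintro _ ⟨u, hu, rfl⟩; exact hu.1 x y⟩
  have hneg : ∀ u ∈ adm d H, (fun x => -u x) ∈ adm d H := by
    intro u hu
    refine ⟨fun x y => ?_, fun S hS x hx y hy => by simp only [hu.2 S hS x hx y hy]⟩
    have := hu.1 y x
    rw [hd.symm] at this
    linarith
  let e : X → X → ℝ := fun x y => sSup {t : ℝ | ∃ u ∈ adm d H, t = u x - u y}
  have hmem : ∀ x y, ∀ u ∈ adm d H, u x - u y ≤ e x y := fun x y u hu =>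
    le_csSup (hbd x y) ⟨u, hu, rfl⟩
  have hsup : ∀ x y (t : ℝ), (∀ u ∈ adm d H, u x - u y ≤ t) → e x y ≤ t := fun x y t ht =>
    csSup_le (hne x y) (by rintro _ ⟨u, hu, rfl⟩; exact ht u hu)
  refine ⟨e, ⟨?_, ?_, ?_⟩, ?_, ?_, ?_⟩
  · intro x
    apply le_antisymm
    · exact hsup x x 0 fun u _ => by simp
    · simpa using hmem x x _ h0
  · have hs : ∀ x y, e x y ≤ e y x := fun x y => hsup x y _ fun u hu => by
      have := hmem y x _ (hneg u hu)
      linarith
    exact fun x y => le_antisymm (hs x y) (hs y x)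
  · intro x y z
    refine hsup x z _ fun u hu => ?_
    have h1 := hmem x y u hu
    have h2 := hmem y z u hu
    linarith
  · exact fun x y => hsup x y _ fun u hu => hu.1 x y
  · intro S hS x hx y hy
    apply le_antisymm
    · exact hsup x y 0 fun u hu => by rw [hu.2 S hS x hx y hy]; simp
    · simpa using hmem x y _ h0
  · intro x y
    obtain ⟨u, hu1, hu2, hu3⟩ := flat hd H ha hb diam sep x
    have hl : (0 : ℝ) < 1 + 2 * a / b := by positivity
    have hw : (fun z => u z / (1 + 2 * a / b)) ∈ adm d H := by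
      refine ⟨fun p q => ?_, fun S hS p hp q hq => by simp only [hu2 S hS p hp q hq]⟩
      rw [← sub_div, div_le_iff₀ hl]
      have := hu1 p q
      linarith
    have h1 := hmem y x _ hw
    rw [← sub_div, div_le_iff₀ hl] at h1
    have h2 := hu3 y
    have h3 := hu3 x
    rw [abs_le] at h2 h3
    rw [hd.self] at h3
    have h4 : e y x = e x y := by
      apply le_antisymm
      · exact hsup y x _ fun w hw => by
          have := hmem x y _ (hneg w hw)
          linarith
      · exact hsup x y _ fun w hw => by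
          have := hmem y x _ (hneg w hw)
          linarith
    rw [h4] at h1
    linarith

/-- Collapsing all holes of the levels `< K`.  Holes of level `k` have `d`-diameter `≤ a k` and mutual
`d`-distance `≥ 2 * b k + 2 * ∑_{j<K} a j ...`; the distance is at least divided by `L` and lowered by `E`. -/
theorem collapse {d : X → X → ℝ} (hd : PM d) (H : ℕ → Set (Set X)) (a b : ℕ → ℝ) (K : ℕ)
    (ha : ∀ k < K, 0 ≤ a k) (hb : ∀ k < K, 0 < b k)
    (diam : ∀ k < K, ∀ S ∈ H k, ∀ x ∈ S, ∀ y ∈ S, d x y ≤ a k)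
    (sep : ∀ k < K, ∀ S ∈ H k, ∀ T ∈ H k, S ≠ T → ∀ x ∈ S, ∀ y ∈ T,
      (∏ j ∈ Finset.range k, (1 + 2 * a j / b j)) * (b k + ∑ j ∈ Finset.range k, 2 * a j) ≤ d x y) :
    ∃ e : X → X → ℝ, PM e ∧ (∀ x y, e x y ≤ d x y) ∧
      (∀ k < K, ∀ S ∈ H k, ∀ x ∈ S, ∀ y ∈ S, e x y = 0) ∧
      ∀ x y, d x y ≤ (∏ j ∈ Finset.range K, (1 + 2 * a j / b j)) *
        (e x y + ∑ j ∈ Finset.range K, 2 * a j) := by
  induction K with
  | zero => exact ⟨d, hd, fun _ _ => le_rfl, fun k hk => absurd hk (by omega), fun x y => by simp⟩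
  | succ K ih =>
    obtain ⟨e, he, h1, h2, h3⟩ := ih (fun k hk => ha k (by omega)) (fun k hk => hb k (by omega))
      (fun k hk => diam k (by omega)) (fun k hk => sep k (by omega))
    have hP : ∀ k ≤ K, (0 : ℝ) < ∏ j ∈ Finset.range k, (1 + 2 * a j / b j) := by
      intro k hk
      refine Finset.prod_pos fun j hj => ?_
      have hj := Finset.mem_range.1 hj
      have := ha j (by omega)
      have := hb j (by omega)
      positivity
    obtain ⟨e', he', g1, g2, g3⟩ := collapse_step he (H K) (ha K (by omega)) (hb K (by omega))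
      (fun S hS x hx y hy => (h1 x y).trans (diam K (by omega) S hS x hx y hy))
      (fun S hS T hT hST x hx y hy => by
        have k1 := sep K (by omega) S hS T hT hST x hx y hy
        have k2 := h3 x y
        have k3 := le_of_mul_le_mul_left (k1.trans k2) (hP K le_rfl)
        linarith)
    refine ⟨e', he', fun x y => (g1 x y).trans (h1 x y), ?_, ?_⟩
    · intro k hk S hS x hx y hy
      rcases Nat.lt_succ_iff_lt_or_eq.1 hk with hk | rfl
      · apply le_antisymm
        · exact (g1 x y).trans (h2 k hk S hS x hx y hy).le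
        · exact he'.nonneg x y
      · exact g2 S hS x hx y hy
    · intro x y
      refine (h3 x y).trans ?_
      rw [Finset.prod_range_succ, Finset.sum_range_succ, mul_assoc]
      apply mul_le_mul_of_nonneg_left _ (hP K le_rfl).le
      have k1 := g3 x y
      have k2 : 0 ≤ ∑ j ∈ Finset.range K, 2 * a j := Finset.sum_nonneg fun j hj => by
        have := ha j (by have := Finset.mem_range.1 hj; omega)
        positivity
      have k3 := ha K (by omega)
      have k4 := hb K (by omega)
      have k5 : 0 ≤ 2 * a K / b K := by positivity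
      nlinarith [mul_nonneg k5 (add_nonneg k2 (by positivity : 0 ≤ 2 * a K))]

end Pool.Agent.Helper92.LR
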